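import Pool.Agent.MP_18cdfa_lc.Undec
import Pool.Agent.MP_18cdfa_lc.Code

namespace Pool.Agent.Results.MP_18cdfa_lc.PartialPrecedence

open Pool.Agent.MP_18cdfa_lc

/-- A signature with the symbols `0` (constant), `1` (binary, lexicographic), `2` (unary, multiset)
and `3` (binary, multiset); `3` is above all others, `0` is below all others, and `1` and `2` are
incomparable. -/
def S4 : Sig where
  m := 4
  ar := ![0, 2, 1, 2]
  prec := fun i j => (i = 3 ∧ j ≠ 3) ∨ (j = 0 ∧ i ≠ 0)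
  lex := ![true, true, false, false]
  irrefl := by decide
  trans := by decide
  const := ⟨0, rfl⟩

/-- **Result.** (1) Let `f` and `g` be two incomparable symbols of positive arity of a finite
signature with precedence and status, each of them unary or with lexicographic status, such that
all symbols below `f` or `g` have arity at most one. Then the existential theory of the recursive
path ordering is undecidable. (2) In particular, it is undecidable for some signature with a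
precedence that is not total and with symbols of arity at least two of both statuses. -/
theorem result :
    (∀ (S : Sig) (f g : Fin S.m), f ≠ g → ¬ S.prec f g → ¬ S.prec g f →
      0 < S.ar f → 0 < S.ar g → (S.ar f = 1 ∨ S.lex f = true) → (S.ar g = 1 ∨ S.lex g = true) →
      (∀ h, S.prec f h ∨ S.prec g h → S.ar h ≤ 1) → ¬ ExistentialDecidable S) ∧
    (∃ S : Sig, (∃ f g : Fin S.m, f ≠ g ∧ ¬ S.prec f g ∧ ¬ S.prec g f) ∧
      (∃ f, 2 ≤ S.ar f ∧ S.lex f = true) ∧ (∃ f, 2 ≤ S.ar f ∧ S.lex f = false) ∧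
      ¬ ExistentialDecidable S) := by
  have h1 : ∀ (S : Sig) (f g : Fin S.m), f ≠ g → ¬ S.prec f g → ¬ S.prec g f →
      0 < S.ar f → 0 < S.ar g → (S.ar f = 1 ∨ S.lex f = true) → (S.ar g = 1 ∨ S.lex g = true) →
      (∀ h, S.prec f h ∨ S.prec g h → S.ar h ≤ 1) → ¬ ExistentialDecidable S :=
    fun S f g hne hfg hgf hf hg lf lg low => undecidable_of_pair ⟨hne, hfg, hgf, hf, hg, lf, lg, low⟩
  refine ⟨h1, S4, ⟨(1 : Fin 4), (2 : Fin 4), ?_⟩, ⟨(1 : Fin 4), ?_⟩, ⟨(3 : Fin 4), ?_⟩, ?_⟩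
  · change (1 : Fin 4) ≠ 2 ∧ ¬ (((1 : Fin 4) = 3 ∧ (2 : Fin 4) ≠ 3) ∨ ((2 : Fin 4) = 0 ∧ (1 : Fin 4) ≠ 0)) ∧
      ¬ (((2 : Fin 4) = 3 ∧ (1 : Fin 4) ≠ 3) ∨ ((1 : Fin 4) = 0 ∧ (2 : Fin 4) ≠ 0))
    decide
  · exact ⟨le_rfl, rfl⟩
  · exact ⟨le_rfl, rfl⟩
  · refine h1 S4 (1 : Fin 4) (2 : Fin 4) ?_ ?_ ?_ ?_ ?_ (Or.inr rfl) (Or.inl rfl) ?_
    · change (1 : Fin 4) ≠ 2
      decide
    · change ¬ (((1 : Fin 4) = 3 ∧ (2 : Fin 4) ≠ 3) ∨ ((2 : Fin 4) = 0 ∧ (1 : Fin 4) ≠ 0))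
      decide
    · change ¬ (((2 : Fin 4) = 3 ∧ (1 : Fin 4) ≠ 3) ∨ ((1 : Fin 4) = 0 ∧ (2 : Fin 4) ≠ 0))
      decide
    · change 0 < 2
      decide
    · change 0 < 1
      decide
    · change ∀ h : Fin 4, (((1 : Fin 4) = 3 ∧ h ≠ 3) ∨ (h = 0 ∧ (1 : Fin 4) ≠ 0)) ∨
        (((2 : Fin 4) = 3 ∧ h ≠ 3) ∨ (h = 0 ∧ (2 : Fin 4) ≠ 0)) → (![0, 2, 1, 2] : Fin 4 → ℕ) h ≤ 1
      decide

end Pool.Agent.Results.MP_18cdfa_lc.PartialPrecedence
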